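import Pool.Agent.Helper98.PS.Spec

/-! Swarm PS, part COP. -/

set_option autoImplicit false

namespace Pool.Agent.Helper79.PS

open Pool.Agent.Helper98.PS

theorem cop : S_COP := by
  intro H V _ _ _ _ ρ N hF hI hN hA N₀ hN₀ v hv
  classical
  obtain ⟨⟨v0, hv0⟩, hirr⟩ := hI
  haveI : Nontrivial V := ⟨⟨v0, 0, hv0⟩⟩
  have hcard : Nat.card V ≠ 1 := by
    intro h
    have := (Nat.card_eq_one_iff_unique.1 h).1
    exact hv0 (Subsingleton.elim _ _)
  obtain ⟨r, hr, hrV⟩ := Nat.exists_prime_and_dvd hcard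
  haveI : Fact r.Prime := ⟨hr⟩
  -- `V` is killed by `r`
  let W : AddSubgroup V :=
    { carrier := {v | r • v = 0}
      zero_mem' := smul_zero r
      add_mem' := fun {a b} ha hb => by
        show r • (a + b) = 0
        rw [smul_add, ha, hb, add_zero]
      neg_mem' := fun {a} ha => by
        show r • (-a) = 0
        rw [smul_neg, ha, neg_zero] }
  have hW : ρ.Stb W := by
    intro k w hw
    show r • ρ.f k w = 0
    rw [← ρ.nsmul', hw, ρ.zero']
  have hWtop : W = ⊤ := by
    rcases hirr W hW with h | h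
    · exfalso
      obtain ⟨w, hw⟩ := exists_prime_addOrderOf_dvd_card' (G := V) r hrV
      have h1 : w ∈ W := by
        show r • w = 0
        rw [← hw]
        exact addOrderOf_nsmul_eq_zero w
      rw [h, AddSubgroup.mem_bot] at h1
      rw [h1, addOrderOf_zero] at hw
      exact hr.one_lt.ne hw
    · exact h
  have hkill : ∀ w : V, r • w = 0 := by
    intro w
    have : w ∈ W := by rw [hWtop]; trivial
    exact this
  -- no elements of order `r` in `N`
  have hnor : ∀ n ∈ N, n ^ r = 1 → n = 1 := by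
    let Q : Subgroup H :=
      { carrier := {n | n ∈ N ∧ ∃ k : ℕ, n ^ (r ^ k) = 1}
        one_mem' := ⟨N.one_mem, 0, one_pow _⟩
        mul_mem' := by
          rintro a b ⟨ha, k, hk⟩ ⟨hb, l, hl⟩
          refine ⟨N.mul_mem ha hb, k + l, ?_⟩
          have hc : Commute a b := hA a ha b hb
          rw [hc.mul_pow, pow_add, pow_mul, hk, one_pow, one_mul, mul_comm, pow_mul, hl, one_pow]
        inv_mem' := by
          rintro a ⟨ha, k, hk⟩
          refine ⟨N.inv_mem ha, k, ?_⟩
          rw [inv_pow, hk, inv_one] }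
    have hQN : Q.Normal := by
      refine ⟨fun n hn g => ?_⟩
      obtain ⟨h1, k, hk⟩ := hn
      refine ⟨hN.conj_mem n h1 g, k, ?_⟩
      rw [conj_pow, hk, mul_one, mul_inv_cancel]
    letI act : MulAction Q V :=
      { smul := fun q v => ρ.f q v
        one_smul := fun v => ρ.one' v
        mul_smul := fun a b v => ρ.mul' _ _ v }
    have hsm : ∀ (q : Q) (v : V), q • v = ρ.f q v := fun _ _ => rfl
    have hQp : IsPGroup r Q := by
      rintro ⟨q, hq, k, hk⟩
      exact ⟨k, Subtype.ext hk⟩
    obtain ⟨b, hb, hb0⟩ := hQp.exists_fixed_point_of_prime_dvd_card_of_fixed_point V hrV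
      (a := (0 : V)) (fun q => ρ.zero' _)
    -- the fixed vectors
    let W' : AddSubgroup V :=
      { carrier := {v | ∀ q ∈ Q, ρ.f q v = v}
        zero_mem' := fun q _ => ρ.zero' q
        add_mem' := fun {a b} ha hb q hq => by rw [ρ.add', ha q hq, hb q hq]
        neg_mem' := fun {a} ha q hq => by rw [ρ.neg', ha q hq] }
    have hW' : ρ.Stb W' := by
      intro k w hw q hq
      have h1 : ρ.f q (ρ.f k w) = ρ.f k (ρ.f (k⁻¹ * q * k) w) := by
        rw [← ρ.mul', ← ρ.mul']
        congr 1
        group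
      rw [h1, hw _ (by
        have := hQN.conj_mem q hq k⁻¹
        rwa [inv_inv] at this)]
    have hb' : b ∈ W' := fun q hq => hb ⟨q, hq⟩
    have hWt : W' = ⊤ := by
      rcases hirr W' hW' with h | h
      · rw [h, AddSubgroup.mem_bot] at hb'
        exact absurd hb'.symm hb0
      · exact h
    intro n hn hnr
    apply hF
    intro v
    have h1 : v ∈ W' := by rw [hWt]; trivial
    exact h1 n ⟨hn, 1, by rw [pow_one]; exact hnr⟩
  have hndvd : ¬ r ∣ Nat.card N₀ := by
    intro h
    obtain ⟨⟨n, hn⟩, h1⟩ := exists_prime_orderOf_dvd_card' (G := N₀) r h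
    have h2 : n ^ r = 1 := by
      have := pow_orderOf_eq_one (⟨n, hn⟩ : N₀)
      rw [h1] at this
      exact congrArg Subtype.val this
    have h3 := hnor n (hN₀ hn) h2
    subst h3
    have : orderOf (⟨1, hn⟩ : N₀) = 1 := orderOf_one
    rw [this] at h1
    exact hr.one_lt.ne h1
  have hcop : Nat.Coprime r (Nat.card N₀) := (Nat.Prime.coprime_iff_not_dvd hr).2 hndvd
  have h1 : addOrderOf v ∣ r := addOrderOf_dvd_of_nsmul_eq_zero (hkill v)
  have h2 : addOrderOf v ∣ Nat.card N₀ := addOrderOf_dvd_of_nsmul_eq_zero hv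
  have h3 : addOrderOf v = 1 := Nat.eq_one_of_dvd_coprimes hcop h1 h2
  exact AddMonoid.addOrderOf_eq_one_iff.1 h3

end Pool.Agent.Helper79.PS
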