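import Pool.Agent.Helper98.PS.Spec

/-! Swarm PS, part L1: the permutation lemma. -/

set_option autoImplicit false

namespace Pool.Agent.Helper79.PS

open Pool.Agent.Helper98.PS

section

variable {H Ω : Type} [Group H] [MulAction H Ω]

/-- transitive subgroups -/
def Tr (Ω : Type) [MulAction H Ω] (X : Subgroup H) : Prop := ∀ ω ω' : Ω, ∃ h ∈ X, h • ω = ω'

/-- the elements of `X` which preserve the orbits of `L` -/
def Pr (Ω : Type) [MulAction H Ω] (L X : Subgroup H) [L.Normal] : Subgroup H where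
  carrier := {h | h ∈ X ∧ ∀ ω : Ω, ∃ l ∈ L, l • ω = h • ω}
  one_mem' := ⟨X.one_mem, fun ω => ⟨1, L.one_mem, rfl⟩⟩
  mul_mem' := by
    rintro a b ⟨ha, ha'⟩ ⟨hb, hb'⟩
    refine ⟨X.mul_mem ha hb, fun ω => ?_⟩
    obtain ⟨l, hl, h1⟩ := hb' ω
    obtain ⟨l', hl', h2⟩ := ha' (b • ω)
    refine ⟨l' * l, L.mul_mem hl' hl, ?_⟩
    rw [mul_smul, h1, h2, mul_smul]
  inv_mem' := by
    rintro a ⟨ha, ha'⟩
    refine ⟨X.inv_mem ha, fun ω => ?_⟩
    obtain ⟨l, hl, h1⟩ := ha' (a⁻¹ • ω)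
    rw [smul_inv_smul] at h1
    refine ⟨l⁻¹, L.inv_mem hl, ?_⟩
    rw [inv_smul_eq_iff, h1]

theorem mem_Pr (L X : Subgroup H) [L.Normal] (h : H) :
    h ∈ Pr Ω L X ↔ h ∈ X ∧ ∀ ω : Ω, ∃ l ∈ L, l • ω = h • ω := Iff.rfl

theorem Pr_normal (L X : Subgroup H) [hL : L.Normal] [hX : X.Normal] : (Pr Ω L X).Normal := by
  refine ⟨fun h hh g => ?_⟩
  rw [mem_Pr] at hh ⊢
  refine ⟨hX.conj_mem h hh.1 g, fun ω => ?_⟩
  obtain ⟨l, hl, h1⟩ := hh.2 (g⁻¹ • ω)
  refine ⟨g * l * g⁻¹, hL.conj_mem l hl g, ?_⟩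
  rw [mul_smul, mul_smul, h1, mul_smul, mul_smul]

theorem Pr_not (L X : Subgroup H) [L.Normal] (hL : ¬ Tr Ω L) : ¬ Tr Ω (Pr Ω L X) := by
  intro h
  apply hL
  intro ω ω'
  obtain ⟨g, hg, h1⟩ := h ω ω'
  obtain ⟨l, hl, h2⟩ := hg.2 ω
  exact ⟨l, hl, h2.trans h1⟩

theorem le_Pr (L X : Subgroup H) [L.Normal] (hLX : L ≤ X) : L ≤ Pr Ω L X :=
  fun l hl => ⟨hLX hl, fun _ => ⟨l, hl, rfl⟩⟩

end

theorem l1 : S_L1 := by
  intro H Ω _ _ _ _ _ _ x hx
  classical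
  -- the maximal normal subgroup which is not transitive
  have hbot : ¬ Tr Ω (⊥ : Subgroup H) := by
    intro h
    obtain ⟨ω, ω', hne⟩ := exists_pair_ne Ω
    obtain ⟨g, hg, h1⟩ := h ω ω'
    rw [Subgroup.mem_bot] at hg
    rw [hg, one_smul] at h1
    exact hne h1
  obtain ⟨L, ⟨hLn, hLt⟩, hLmax⟩ := (Set.toFinite {X : Subgroup H | X.Normal ∧ ¬ Tr Ω X}).exists_maximal
    ⟨⊥, ⟨inferInstance, hbot⟩⟩
  have hmax : ∀ X : Subgroup H, X.Normal → ¬ Tr Ω X → L ≤ X → X = L := fun X h1 h2 h3 =>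
    le_antisymm (hLmax ⟨h1, h2⟩ h3) h3
  haveI := hLn
  have hLtop : L ≠ ⊤ := by
    rintro rfl
    apply hLt
    intro ω ω'
    obtain ⟨g, hg⟩ := MulAction.exists_smul_eq H ω ω'
    exact ⟨g, Subgroup.mem_top g, hg⟩
  -- a minimal normal subgroup above it
  obtain ⟨B, ⟨hBn, hLB⟩, hBmin⟩ := (Set.toFinite {X : Subgroup H | X.Normal ∧ L < X}).exists_minimal
    ⟨⊤, ⟨inferInstance, lt_top_iff_ne_top.2 hLtop⟩⟩
  have hmin : ∀ X : Subgroup H, X.Normal → L < X → X ≤ B → X = B := fun X h1 h2 h3 =>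
    le_antisymm h3 (hBmin ⟨h1, h2⟩ h3)
  haveI := hBn
  have hBt : Tr Ω B := by
    by_contra hcon
    exact hLB.ne (hmax B hBn hcon hLB.le).symm
  -- the commutators
  have hBB : ⁅B, B⁆ ≤ L := by
    set B' := B.map (QuotientGroup.mk' L) with hB'
    haveI : B'.Normal := hBn.map _ (QuotientGroup.mk'_surjective L)
    haveI : Group.IsSolvable (H ⧸ L) := inferInstance
    have hne : B' ≠ ⊥ := by
      intro h0
      apply hLB.not_ge
      have h1 : B' ≤ ⊥ := h0.le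
      rw [hB', Subgroup.map_le_iff_le_comap, MonoidHom.comap_bot, QuotientGroup.ker_mk'] at h1
      exact h1
    have hlt := Group.IsSolvable.commutator_lt_of_ne_bot hne
    set C := (⁅B', B'⁆).comap (QuotientGroup.mk' L) with hC
    have hCn : C.Normal := by
      rw [hC]
      infer_instance
    have hLC : L ≤ C := by
      intro l hl
      rw [hC, Subgroup.mem_comap]
      have : QuotientGroup.mk' L l = 1 := (QuotientGroup.eq_one_iff l).2 hl
      rw [this]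
      exact Subgroup.one_mem _
    have hBC : ⁅B, B⁆ ≤ C := by
      rw [hC, ← Subgroup.map_le_iff_le_comap, Subgroup.map_commutator]
    have hBL : B'.comap (QuotientGroup.mk' L) = B := by
      rw [hB', Subgroup.comap_map_eq, QuotientGroup.ker_mk']
      exact sup_eq_left.2 hLB.le
    have hCB : C ≤ B := by
      rw [hC, ← hBL]
      exact Subgroup.comap_mono hlt.le
    by_cases hCL : C = L
    · rw [← hCL]
      exact hBC
    · exfalso
      have h1 := hmin C hCn (lt_of_le_of_ne hLC (fun h => hCL h.symm)) hCB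
      apply hlt.not_ge
      intro z hz
      obtain ⟨b, hb, rfl⟩ := hz
      have : b ∈ C := by rw [h1]; exact hb
      exact this
  -- elements of `B` preserving one orbit
  have hone : ∀ b ∈ B, ∀ ω : Ω, (∃ l ∈ L, l • ω = b • ω) → b ∈ L := by
    rintro b hb ω ⟨l, hl, h1⟩
    have h2 : b ∈ Pr Ω L B := by
      refine ⟨hb, fun ω' => ?_⟩
      obtain ⟨c, hc, rfl⟩ := hBt ω ω'
      have h3 : b * c * b⁻¹ * c⁻¹ ∈ L := hBB (Subgroup.commutator_mem_commutator hb hc)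
      refine ⟨(b * c * b⁻¹ * c⁻¹) * (c * l * c⁻¹), L.mul_mem h3 (hLn.conj_mem l hl c), ?_⟩
      have h5 : ((b * c * b⁻¹ * c⁻¹) * (c * l * c⁻¹)) • c • ω = (b * c * b⁻¹) • (l • ω) := by
        rw [smul_smul, smul_smul]
        congr 1
        group
      rw [h5, h1, smul_smul, smul_smul]
      congr 1
      group
    have h4 := hmax (Pr Ω L B) (Pr_normal L B) (Pr_not L B hLt) (le_Pr L B hLB.le)
    rw [← h4]
    exact h2
  by_cases hcase : ∃ b ∈ B, x * b * x⁻¹ * b⁻¹ ∉ L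
  · obtain ⟨b, hb, hxb⟩ := hcase
    refine ⟨_, Or.inr ⟨b, rfl⟩, fun ω hω => hxb ?_⟩
    refine hone _ (B.mul_mem (hBn.conj_mem b hb x) (B.inv_mem hb)) ω ⟨1, L.one_mem, ?_⟩
    rw [one_smul, hω]
  · push Not at hcase
    refine ⟨x, Or.inl rfl, fun ω hω => ?_⟩
    have h1 : x ∈ Pr Ω L ⊤ := by
      refine ⟨Subgroup.mem_top x, fun ω' => ?_⟩
      obtain ⟨c, hc, rfl⟩ := hBt ω ω'
      refine ⟨x * c * x⁻¹ * c⁻¹, hcase c hc, ?_⟩
      rw [mul_smul, inv_smul_smul, mul_smul, mul_smul]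
      congr 2
      rw [inv_smul_eq_iff, hω]
    haveI := Pr_normal (Ω := Ω) L (⊤ : Subgroup H)
    have h2 : Subgroup.normalClosure {x} ≤ Pr Ω L ⊤ :=
      Subgroup.normalClosure_le_normal (Set.singleton_subset_iff.2 h1)
    rw [hx] at h2
    apply Pr_not (Ω := Ω) L ⊤ hLt
    intro ω₁ ω₂
    obtain ⟨g, hg⟩ := MulAction.exists_smul_eq H ω₁ ω₂
    exact ⟨g, h2 (Subgroup.mem_top g), hg⟩

end Pool.Agent.Helper79.PS
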