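import Pool.Agent.Helper98.PS.Spec

/-! Swarm PS, parts LNA and L. -/

set_option autoImplicit false

namespace Pool.Agent.Helper79.PS

open Pool.Agent.Helper98.PS

/-- a central element different from one has no fixed vectors -/
theorem central_fpf {H V : Type} [Group H] [AddCommGroup V] (ρ : Act H V) (hF : ρ.Fai)
    (hI : ρ.Irr) {z : H} (hz : ∀ g, g * z = z * g) (hz1 : z ≠ 1) :
    ∀ v, ρ.f z v = v → v = 0 := by
  let W : AddSubgroup V :=
    { carrier := {v | ρ.f z v = v}
      zero_mem' := ρ.zero' z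
      add_mem' := fun {a b} ha hb => by
        show ρ.f z (a + b) = a + b
        rw [ρ.add', ha, hb]
      neg_mem' := fun {a} ha => by
        show ρ.f z (-a) = -a
        rw [ρ.neg', ha] }
  have hW : ρ.Stb W := by
    intro k w hw
    show ρ.f z (ρ.f k w) = ρ.f k w
    rw [← ρ.mul', ← hz, ρ.mul', hw]
  rcases hI.2 W hW with h | h
  · intro v hv
    have h1 : v ∈ W := hv
    rw [h, AddSubgroup.mem_bot] at h1
    exact h1
  · exfalso
    apply hz1
    apply hF
    intro v
    have h1 : v ∈ W := by rw [h]; trivial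
    exact h1

theorem lna (hC : S_COMM) (hP : S_FPF) : S_LNA := by
  intro H V _ _ _ _ _ ρ x hF hI hx1 hx
  classical
  have hpos : 0 < Nat.card (ρ.dS x) := Nat.card_pos
  set d := Nat.card (ρ.dS x) with hd
  have hd24 : d ^ 2 ≤ d ^ 4 := Nat.pow_le_pow_right hpos (by norm_num)
  have hd14 : d ≤ d ^ 4 := by
    calc d = d ^ 1 := (pow_one d).symm
      _ ≤ d ^ 4 := Nat.pow_le_pow_right hpos (by norm_num)
  by_cases hxc : x ∈ Subgroup.center H
  · left
    rw [hP H V ρ x (central_fpf ρ hF hI (Subgroup.mem_center_iff.1 hxc) hx1)]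
    exact hd14
  have htop : ¬ (⊤ : Subgroup H) ≤ Subgroup.center H := fun h => hxc (h (Subgroup.mem_top x))
  obtain ⟨N, ⟨hNn, hNc⟩, hNmin⟩ := (Set.toFinite {X : Subgroup H | X.Normal ∧
    ¬ X ≤ Subgroup.center H}).exists_minimal ⟨⊤, ⟨inferInstance, htop⟩⟩
  have hmin : ∀ X : Subgroup H, X.Normal → ¬ X ≤ Subgroup.center H → X ≤ N → X = N :=
    fun X h1 h2 h3 => le_antisymm h3 (hNmin ⟨h1, h2⟩ h3)
  haveI := hNn
  have hNbot : N ≠ ⊥ := by
    rintro rfl
    exact hNc bot_le
  have hNN : ⁅N, N⁆ ≤ Subgroup.center H := by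
    by_contra hcon
    have h1 := Group.IsSolvable.commutator_lt_of_ne_bot hNbot
    exact h1.ne (hmin _ inferInstance hcon h1.le)
  -- some element of `N` does not commute with `x`
  have hex : ∃ g ∈ N, x * g * x⁻¹ * g⁻¹ ≠ 1 := by
    by_contra hcon
    push Not at hcon
    have h1 : x ∈ Subgroup.centralizer (N : Set H) := by
      rw [Subgroup.mem_centralizer_iff]
      intro g hg
      have h2 := hcon g hg
      rw [mul_inv_eq_one, mul_inv_eq_iff_eq_mul] at h2
      exact h2.symm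
    have h2 : Subgroup.normalClosure {x} ≤ Subgroup.centralizer (N : Set H) :=
      Subgroup.normalClosure_le_normal (Set.singleton_subset_iff.2 h1)
    rw [hx] at h2
    apply hNc
    intro n hn
    rw [Subgroup.mem_center_iff]
    intro g
    have h3 := h2 (Subgroup.mem_top g)
    rw [Subgroup.mem_centralizer_iff] at h3
    exact (h3 n hn).symm
  by_cases hab : Abel N
  · obtain ⟨g, hg, h1⟩ := hex
    exact Or.inr ⟨N, hNn, hab, g, hg, h1⟩
  left
  obtain ⟨g, hg, hy1⟩ := hex
  obtain ⟨y, hy⟩ : ∃ y, y = x * g * x⁻¹ * g⁻¹ := ⟨_, rfl⟩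
  rw [← hy] at hy1
  have hyN : y ∈ N := by
    rw [hy]
    exact N.mul_mem (hNn.conj_mem g hg x) (N.inv_mem hg)
  have hdy : Nat.card (ρ.dS y) ≤ d ^ 2 := by
    rw [hy]
    exact hC H V ρ x g
  by_cases hyc : y ∈ Subgroup.center H
  · rw [hP H V ρ y (central_fpf ρ hF hI (Subgroup.mem_center_iff.1 hyc) hy1)]
    exact hdy.trans hd24
  have hncl : Subgroup.normalClosure {y} = N := by
    apply hmin _ inferInstance
    · intro h
      exact hyc (h (Subgroup.subset_normalClosure rfl))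
    · exact Subgroup.normalClosure_le_normal (Set.singleton_subset_iff.2 hyN)
  have hex2 : ∃ h ∈ N, y * h * y⁻¹ * h⁻¹ ≠ 1 := by
    by_contra hcon
    push Not at hcon
    have h1 : y ∈ Subgroup.centralizer (N : Set H) := by
      rw [Subgroup.mem_centralizer_iff]
      intro g hg
      have h2 := hcon g hg
      rw [mul_inv_eq_one, mul_inv_eq_iff_eq_mul] at h2
      exact h2.symm
    have h2 : Subgroup.normalClosure {y} ≤ Subgroup.centralizer (N : Set H) :=
      Subgroup.normalClosure_le_normal (Set.singleton_subset_iff.2 h1)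
    rw [hncl] at h2
    apply hab
    intro a ha b hb
    have h3 := h2 ha
    rw [Subgroup.mem_centralizer_iff] at h3
    exact (h3 b hb).symm
  obtain ⟨h, hh, hz1⟩ := hex2
  have hzc : y * h * y⁻¹ * h⁻¹ ∈ Subgroup.center H :=
    hNN (Subgroup.commutator_mem_commutator hyN hh)
  rw [hP H V ρ _ (central_fpf ρ hF hI (Subgroup.mem_center_iff.1 hzc) hz1)]
  refine (hC H V ρ y h).trans ?_
  calc Nat.card (ρ.dS y) ^ 2 ≤ (d ^ 2) ^ 2 := Nat.pow_le_pow_left hdy 2
    _ = d ^ 4 := by rw [← pow_mul]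

/-- the kernel of an action -/
def ker {H V : Type} [Group H] [AddCommGroup V] (ρ : Act H V) : Subgroup H where
  carrier := {h | ∀ v, ρ.f h v = v}
  one_mem' := ρ.one'
  mul_mem' := fun {a b} ha hb v => by rw [ρ.mul', hb, ha]
  inv_mem' := fun {a} ha v => by
    conv_lhs => rw [← ha v]
    exact ρ.inv_f a v

theorem ker_normal {H V : Type} [Group H] [AddCommGroup V] (ρ : Act H V) : (ker ρ).Normal := by
  refine ⟨fun h hh g v => ?_⟩
  rw [ρ.mul', ρ.mul', hh, ρ.f_inv]

/-- the faithful action of the quotient -/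
def quoAct {H V : Type} [Group H] [AddCommGroup V] (ρ : Act H V) [(ker ρ).Normal] :
    Act (H ⧸ ker ρ) V where
  f := fun q => Quotient.liftOn' q ρ.f (by
    intro a b hab
    rw [QuotientGroup.leftRel_apply] at hab
    funext v
    have h1 := hab v
    rw [ρ.mul'] at h1
    rw [← ρ.f_inv a (ρ.f b v), h1])
  one' v := ρ.one' v
  mul' a b v := by
    obtain ⟨a, rfl⟩ := QuotientGroup.mk_surjective a
    obtain ⟨b, rfl⟩ := QuotientGroup.mk_surjective b
    exact ρ.mul' a b v
  add' a v w := by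
    obtain ⟨a, rfl⟩ := QuotientGroup.mk_surjective a
    exact ρ.add' a v w

theorem l (hLNA : S_LNA) (hLB : S_LB) (hC : S_COMM) (hP : S_FPF) : S_L := by
  intro H V _ _ _ _ _ ρ x hI hx hxv
  classical
  haveI := ker_normal ρ
  set σ := quoAct ρ with hσ
  have hf : ∀ (h : H) (v : V), σ.f (QuotientGroup.mk' (ker ρ) h) v = ρ.f h v := fun _ _ => rfl
  have hσF : σ.Fai := by
    intro k hk
    obtain ⟨k, rfl⟩ := QuotientGroup.mk'_surjective _ k
    rw [QuotientGroup.mk'_apply, QuotientGroup.eq_one_iff]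
    intro v
    rw [← hf]
    exact hk v
  have hσI : σ.Irr := by
    refine ⟨hI.1, fun W hW => hI.2 W fun k w hw => ?_⟩
    rw [← hf]
    exact hW _ w hw
  set x' := QuotientGroup.mk' (ker ρ) x with hx'
  have hx'1 : x' ≠ 1 := by
    intro h
    obtain ⟨v, hv⟩ := hxv
    apply hv
    rw [← hf, ← hx', h, σ.one']
  have hncl : Subgroup.normalClosure {x'} = ⊤ := by
    have h1 := Subgroup.map_normalClosure {x} (QuotientGroup.mk' (ker ρ))
      (QuotientGroup.mk'_surjective _)
    rw [hx, Set.image_singleton, ← MonoidHom.range_eq_map,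
      MonoidHom.range_eq_top.2 (QuotientGroup.mk'_surjective _)] at h1
    exact h1.symm
  have hdS : Nat.card (σ.dS x') = Nat.card (ρ.dS x) := rfl
  have hpos : 0 < Nat.card (ρ.dS x) := Nat.card_pos
  rw [← hdS] at hpos ⊢
  set d := Nat.card (σ.dS x') with hd
  rcases hLNA (H ⧸ ker ρ) V σ x' hσF hσI hx'1 hncl with h | ⟨N, hN, hNa, g, hg, hy⟩
  · exact h.trans (Nat.pow_le_pow_right hpos (by norm_num))
  · by_cases hcase : ∃ n ∈ N, n ≠ 1 ∧ ∃ v : V, v ≠ 0 ∧ σ.f n v = v
    · exact hLB (H ⧸ ker ρ) V σ x' hσF hσI hncl N hN hNa hcase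
    · push Not at hcase
      have hyN : x' * g * x'⁻¹ * g⁻¹ ∈ N := N.mul_mem (hN.conj_mem g hg x') (N.inv_mem hg)
      rw [hP (H ⧸ ker ρ) V σ (x' * g * x'⁻¹ * g⁻¹) (by
        intro v hv
        by_contra hv0
        exact hcase _ hyN hy v hv0 hv)]
      exact (hC (H ⧸ ker ρ) V σ x' g).trans (Nat.pow_le_pow_right hpos (by norm_num))

end Pool.Agent.Helper79.PS
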